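import Pool.Agent.Helper716_Lang.Core

/-!
# Rational points of weighted complete intersections over pointless real curves

`K` is a field of transcendence degree one over the real numbers in which `-1` is a sum of squares,
for example the function field of a real curve without real points.  Weighted homogeneous
polynomials `f_1, ..., f_r` over `K` of weighted degrees `d_1, ..., d_r ≥ 1` in variables of
weights `w_1, ..., w_N ≥ 1` have a common nontrivial zero in `K ^ N` as soon as
`d_1 + ... + d_r < w_1 + ... + w_N`.
-/

set_option autoImplicit false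

namespace Pool.Agent.Results.MP_638b00_ag.WeightedFano

/-- Weighted complete intersections with `∑ d_j < ∑ w_i` have rational points over function fields
of real curves without real points. -/
theorem result (K : Type) [Field K] [Algebra ℝ K]
    (htr : ∃ x : Fin 1 → K, IsTranscendenceBasis ℝ x)
    (hnonreal : ∃ (q : ℕ) (g : Fin q → K), ∑ l, g l ^ 2 = -1)
    (r N : ℕ) (w : Fin N → ℕ) (hw : ∀ i, 1 ≤ w i) (d : Fin r → ℕ) (hd : ∀ j, 1 ≤ d j)
    (hwd : ∑ j, d j < ∑ i, w i)
    (f : Fin r → MvPolynomial (Fin N) K) (hf : ∀ j, (f j).IsWeightedHomogeneous w (d j)) :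
    ∃ a : Fin N → K, a ≠ 0 ∧ ∀ j, MvPolynomial.eval a (f j) = 0 := by
  obtain ⟨x, hx⟩ := htr
  obtain ⟨q, g, hg⟩ := hnonreal
  have : IsRealClosed ℝ := Pool.Agent.Helper716_Lang.RC.isRealClosed_real
  exact Pool.Agent.Helper716_Lang.lang_weighted hx g hg w hw d hd (by simpa using hwd) f hf

end Pool.Agent.Results.MP_638b00_ag.WeightedFano
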